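import Pool.Agent.BEW.StmtsP

/-!
# Squad BEW (MP_be01ff_an), row RSM: the radial sines in the shell
-/

set_option autoImplicit false

namespace Pool.Agent.BEW.H66

open Set Filter Topology MeasureTheory
open scoped InnerProductSpace ENNReal NNReal
open Pool.Agent.BE01 Pool.Agent.BEL Pool.Agent.BEG Pool.Agent.BEH Pool.Agent.BER

noncomputable section

theorem sg_left (d : ℕ) (β : ℝ) (k : ℕ) : sg d β k β = 0 := by
  unfold sg
  rw [sub_self, mul_zero, Real.sin_zero, mul_zero, mul_zero]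

theorem sg_right (d : ℕ) (β : ℝ) (k : ℕ) : sg d β k (β + Real.pi) = 0 := by
  unfold sg
  have h : ((k : ℝ) + 1) * (β + Real.pi - β) = ((k + 1 : ℕ) : ℝ) * Real.pi := by
    push_cast
    ring
  rw [h, Real.sin_nat_mul_pi, mul_zero, mul_zero]

theorem rsm (rlp : RlpStmt) (rwd : RwdStmt) (rhd : RhdStmt) : RsmStmt := by
  intro d β m J s Bo k hd hβ hJ hs hB
  obtain ⟨hg, hL⟩ := rlp d β k hd hβ
  have hd1 : 1 ≤ d := by omega
  have hab : β < β + Real.pi := by linarith [Real.pi_pos]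
  have hβπ : 0 < β + Real.pi := by linarith [Real.pi_pos]
  obtain ⟨f, G, hH, hf, hG⟩ := rhd d β (β + Real.pi) (fun t => sg d β k (Real.sqrt t)) hd1 hβ hab hg
    (by
      rw [Real.sqrt_sq hβ.le]
      exact sg_left d β k)
    (by
      rw [Real.sqrt_sq hβπ.le]
      exact sg_right d β k)
  have hsq : ∀ x : En d, Real.sqrt (‖x‖ ^ 2) = ‖x‖ := fun x => Real.sqrt_sq (norm_nonneg x)
  have e1 : (J (s k) : En d → ℝ) =ᵐ[mu (Sh d β (β + Real.pi))] fun x => sg d β k ‖x‖ := by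
    filter_upwards [hJ.ev (s k), hJ.ac (fun r => s k r = sg d β k r) (hs k)] with x h1 h2
    rw [h1]
    exact h2
  have e2 : f = J (s k) := by
    apply Lp.ext
    filter_upwards [hf, e1] with x h1 h2
    rw [h1, h2, hsq]
  refine ⟨G, ?_, ?_⟩
  · rw [← e2]
    exact hH
  · intro ψ hψ
    have i1 : ∫ x, ⟪G x, gradient ψ x⟫_ℝ ∂(mu (Sh d β (β + Real.pi))) =
        ∫ x, ⟪gradient ψ x, gradient (fun y => sg d β k (Real.sqrt (‖y‖ ^ 2))) x⟫_ℝ
          ∂(mu (Sh d β (β + Real.pi))) := by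
      refine integral_congr_ae ?_
      filter_upwards [hG] with x hx
      rw [hx, real_inner_comm]
    have i2 := rwd d β (β + Real.pi) (fun t => sg d β k (Real.sqrt t)) ψ hd1 hβ hab hg hψ
    rw [i1, i2, ← integral_neg]
    refine integral_congr_ae ?_
    have e3 : ∀ᵐ r ∂(nu d β), (((((k : ℝ) + 1) ^ 2 • s k + Bo (s k) : Lp ℝ 2 (nu d β))) : ℝ → ℝ) r =
        (((k : ℝ) + 1) ^ 2 + cd d / r ^ 2) * sg d β k r := by
      filter_upwards [Lp.coeFn_add (((k : ℝ) + 1) ^ 2 • s k) (Bo (s k)),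
        Lp.coeFn_smul (((k : ℝ) + 1) ^ 2) (s k), hB (s k), hs k] with r h1 h2 h3 h4
      rw [h1, Pi.add_apply, h2, Pi.smul_apply, h3, h4, smul_eq_mul]
      ring
    have e4 : ∀ᵐ x ∂(mu (Sh d β (β + Real.pi))), x ∈ Sh d β (β + Real.pi) :=
      ae_restrict_mem ((measurableSet_lt measurable_const measurable_norm).inter
        (measurableSet_lt measurable_norm measurable_const))
    filter_upwards [hJ.ev (((k : ℝ) + 1) ^ 2 • s k + Bo (s k)), hJ.ac _ e3, e4] with x h1 h2 h3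
    have hx : 0 < ‖x‖ ^ 2 := pow_pos (hβ.trans h3.1) 2
    rw [h1, h2, hL (‖x‖ ^ 2) hx, hsq]
    ring

end

end Pool.Agent.BEW.H66
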