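import Pool.Agent.BEW.StmtsD
import Pool.Agent.Helper29_BEL.GLP

/-!
# Squad BEW (MP_be01ff_an), row DYN: the Galerkin solutions have the sharp rate
-/

set_option autoImplicit false

namespace Pool.Agent.BEW.H66

open Set Filter Topology MeasureTheory
open scoped InnerProductSpace ENNReal
open Pool.Agent.BE01 Pool.Agent.BEL Pool.Agent.BEG Pool.Agent.BEH Pool.Agent.BER

noncomputable section

/-- choice of the amplitude -/
theorem amp {al R0 : ℝ} (B m0 y : ℝ) (hal : 0 < al) (hR : 0 < R0) :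
    ∃ e0 : ℝ, 0 < e0 ∧ e0 ≤ R0 ∧ e0 * B ≤ 1 ∧ m0 * ((e0 * B) ^ al) ^ 2 * B ^ 2 ≤ 1 ∧
      3 * y * e0 ^ al ≤ 1 / 2 := by
  have h1 : Continuous fun e : ℝ => e * B := continuous_id.mul continuous_const
  have h2 : Continuous fun e : ℝ => m0 * ((e * B) ^ al) ^ 2 * B ^ 2 :=
    (continuous_const.mul ((h1.rpow_const fun _ => Or.inr hal.le).pow 2)).mul continuous_const
  have h3 : Continuous fun e : ℝ => 3 * y * e ^ al :=
    continuous_const.mul (continuous_id.rpow_const fun _ => Or.inr hal.le)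
  have e1 : ∀ᶠ e : ℝ in 𝓝 0, e * B < 1 :=
    h1.continuousAt.eventually_lt continuousAt_const (by simp)
  have e2 : ∀ᶠ e : ℝ in 𝓝 0, m0 * ((e * B) ^ al) ^ 2 * B ^ 2 < 1 :=
    h2.continuousAt.eventually_lt continuousAt_const (by simp [Real.zero_rpow hal.ne'])
  have e3 : ∀ᶠ e : ℝ in 𝓝 0, 3 * y * e ^ al < 1 / 2 :=
    h3.continuousAt.eventually_lt continuousAt_const (by simp [Real.zero_rpow hal.ne'])
  have e4 : ∀ᶠ e : ℝ in 𝓝 0, e < R0 :=
    continuous_id.continuousAt.eventually_lt continuousAt_const hR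
  have e5 : ∀ᶠ e : ℝ in 𝓝[>] 0, (e * B < 1 ∧ m0 * ((e * B) ^ al) ^ 2 * B ^ 2 < 1 ∧
      3 * y * e ^ al < 1 / 2 ∧ e < R0) ∧ 0 < e :=
    ((e1.and (e2.and (e3.and e4))).filter_mono nhdsWithin_le_nhds).and self_mem_nhdsWithin
  obtain ⟨e0, ⟨a1, a2, a3, a4⟩, a5⟩ := e5.exists
  exact ⟨e0, a5, a4.le, a1.le, a2.le, a3.le⟩

/-- the nonlinearity -/
theorem gla {al s D : ℝ} (hal : 0 < al) (h : |s| ≤ D) (h1 : D ≤ 1) :
    gl 1 al 1 s ^ 2 ≤ (D ^ al * D) ^ 2 := by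
  have hD : 0 ≤ D := (abs_nonneg s).trans h
  rw [Pool.Agent.BEL.H29.gl_eq hal (h.trans h1), ← sq_abs (gf 1 al s)]
  have h2 : |gf 1 al s| = |s| ^ al * |s| := by
    unfold gf
    rw [one_mul, abs_mul, abs_of_nonneg (Real.rpow_nonneg (abs_nonneg s) al)]
  rw [h2]
  have h3 : |s| ^ al ≤ D ^ al := Real.rpow_le_rpow (abs_nonneg s) h hal.le
  have h4 : 0 ≤ |s| ^ al := Real.rpow_nonneg (abs_nonneg s) al
  have h5 : |s| ^ al * |s| ≤ D ^ al * D := mul_le_mul h3 h (abs_nonneg s) (h4.trans h3)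
  exact pow_le_pow_left₀ (mul_nonneg h4 (abs_nonneg s)) h5 2

/-- DYN -/
theorem dyn (bsl : BslStmt) (cst : CstStmt) (seq : SeqStmt) : DynStmt := by
  intro al B m0 g0 hal hB hm hg
  obtain ⟨ε, η, hε, hη, hη1, cs⟩ := cst al B m0 g0 hal hB hm hg
  refine ⟨ε, hε, ?_⟩
  intro X _ μ b om γ T ons frq hT avg hx1 hx2
  obtain ⟨R0, hR0, cs⟩ := cs X μ b om γ T ons frq hT avg hx1 hx2
  have hT0 : (0 : ℝ) < T := lt_of_lt_of_le one_pos hT
  set y : ℝ := (∫ x, |b 0 x| ^ (al + 2) ∂μ) * mc (al + 2) * T with hy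
  have hy0 : 0 < y := mul_pos (lt_of_lt_of_le hg hx1) hT0
  obtain ⟨e0, he, heR, heB, hem, hey⟩ := amp B m0 y hal hR0
  obtain ⟨c0, C0, hc0, hC0, sq⟩ := seq al y e0 hal hy0 he hey
  set q : ℝ := 2 / al with hq
  have hq0 : 0 < q := div_pos two_pos hal
  have hTq : 0 < (1 + T) ^ q := Real.rpow_pos_of_pos (by linarith) q
  refine ⟨e0, c0 / 4, 20 * C0 * (1 + T) ^ q, he, by positivity, by positivity, ?_⟩
  intro M p v hM gal hp hv0 hv
  -- one step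
  have stp : ∀ t0 : ℝ, 0 < R2 p v t0 → R2 p v t0 ≤ e0 ^ 2 → F2 M p v t0 ≤ η ^ 2 * R2 p v t0 →
      S2 om M v t0 ≤ R2 p v t0 → Wdw μ b om M al p v B η T t0 (Real.sqrt (R2 p v t0)) ∧
      3 * y * Real.sqrt (R2 p v t0) ^ al ≤ 1 / 2 ∧
      F2 M p v (t0 + T) ≤ η ^ 2 * R2 p v (t0 + T) ∧ S2 om M v (t0 + T) ≤ R2 p v (t0 + T) ∧
      R2 p v t0 * (1 - 3 * y * Real.sqrt (R2 p v t0) ^ al) ≤ R2 p v (t0 + T) ∧
      R2 p v (t0 + T) ≤ R2 p v t0 * (1 - y * Real.sqrt (R2 p v t0) ^ al) := by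
    intro t0 a1 a2 a3 a4
    have b1 : 0 < Real.sqrt (R2 p v t0) := Real.sqrt_pos.2 a1
    have b2 : Real.sqrt (R2 p v t0) ^ 2 = R2 p v t0 := Real.sq_sqrt a1.le
    have b3 : Real.sqrt (R2 p v t0) ≤ e0 := by
      rw [Real.sqrt_le_left he.le]
      exact a2
    have b4 := cs M p v t0 (Real.sqrt (R2 p v t0)) hM gal b1 (b3.trans heR) b2.symm
      (by rw [b2]; exact a3) (by rw [b2]; exact a4)
    rw [b2] at b4
    exact b4
  -- initial values
  have i1 : R2 p v 0 = e0 ^ 2 := by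
    unfold R2
    rw [hp 0 hM, hv0]
    ring
  have i2 : F2 M p v 0 = 0 := by
    unfold F2
    refine Finset.sum_eq_zero fun k hk => ?_
    rw [Finset.mem_Ico] at hk
    rw [hp k hk.2, hv k hk.2 hk.1]
    ring
  have i3 : ∀ x, vel b (Finset.range M) v 0 x = e0 * b 0 x := by
    intro x
    unfold vel
    rw [Finset.sum_eq_single 0, hv0]
    · intro k hk hk0
      rw [Finset.mem_range] at hk
      rw [hv k hk (Nat.one_le_iff_ne_zero.2 hk0), zero_mul]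
    · intro h
      exact absurd (Finset.mem_range.2 hM) h
  have i4 : ∀ x, |e0 * b 0 x| ≤ e0 * B := by
    intro x
    rw [abs_mul, abs_of_pos he]
    exact mul_le_mul_of_nonneg_left (ons.bdd 0 x) he.le
  have i5 : ∀ x, gl 1 al 1 (e0 * b 0 x) ^ 2 ≤ ((e0 * B) ^ al * (e0 * B)) ^ 2 := fun x =>
    gla hal (i4 x) heB
  have hglc : Continuous (gl 1 al 1) :=
    continuous_iff_continuousAt.2 fun s => (Pool.Agent.BEL.H29.gl_deriv (a := 1) hal 1 s).continuousAt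
  have i6 : ∑ k ∈ Finset.Ico 1 M, (∫ x, gl 1 al 1 (e0 * b 0 x) * b k x ∂μ) ^ 2 ≤
      ∫ x, gl 1 al 1 (e0 * b 0 x) ^ 2 ∂μ := by
    refine (bsl X μ b B m0 ons).1 (Finset.Ico 1 M) (fun x => gl 1 al 1 (e0 * b 0 x))
      (hglc.measurable.comp ((ons.meas 0).const_mul e0)) ⟨(e0 * B) ^ al * (e0 * B), fun x => ?_⟩
    exact abs_le_of_sq_le_sq (i5 x)
      (mul_nonneg (Real.rpow_nonneg (mul_pos he hB).le al) (mul_pos he hB).le)
  have i7 : ∫ x, gl 1 al 1 (e0 * b 0 x) ^ 2 ∂μ ≤ e0 ^ 2 := by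
    have hfin : IsFiniteMeasure μ := ons.fin
    have j1 : ∫ x, gl 1 al 1 (e0 * b 0 x) ^ 2 ∂μ ≤
        ∫ _, ((e0 * B) ^ al * (e0 * B)) ^ 2 ∂μ :=
      integral_mono_of_nonneg (Eventually.of_forall fun x => sq_nonneg _) (integrable_const _)
        (Eventually.of_forall i5)
    rw [integral_const, smul_eq_mul] at j1
    have j2 : μ.real univ * ((e0 * B) ^ al * (e0 * B)) ^ 2 ≤
        m0 * ((e0 * B) ^ al * (e0 * B)) ^ 2 :=
      mul_le_mul_of_nonneg_right ons.mass (sq_nonneg _)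
    have j3 : m0 * ((e0 * B) ^ al * (e0 * B)) ^ 2 =
        (m0 * ((e0 * B) ^ al) ^ 2 * B ^ 2) * e0 ^ 2 := by ring
    have j4 : (m0 * ((e0 * B) ^ al) ^ 2 * B ^ 2) * e0 ^ 2 ≤ 1 * e0 ^ 2 :=
      mul_le_mul_of_nonneg_right hem (sq_nonneg e0)
    linarith
  have i8 : S2 om M v 0 ≤ e0 ^ 2 := by
    have j1 : S2 om M v 0 =
        ∑ k ∈ Finset.Ico 1 M, (∫ x, gl 1 al 1 (e0 * b 0 x) * b k x ∂μ) ^ 2 := by
      unfold S2
      refine Finset.sum_congr rfl fun k hk => ?_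
      rw [Finset.mem_Ico] at hk
      have j2 : dd v k 0 = -(om k * p k 0) -
          ∫ x, gl 1 al 1 (vel b (Finset.range M) v 0 x) * b k x ∂μ := (gal.dv k hk.2 0).deriv
      rw [j2, hp k hk.2, hv k hk.2 hk.1]
      simp only [i3]
      ring
    rw [j1]
    exact i6.trans i7
  -- induction
  have ind : ∀ j : ℕ, 0 < R2 p v (j * T) ∧ R2 p v (j * T) ≤ e0 ^ 2 ∧
      F2 M p v (j * T) ≤ η ^ 2 * R2 p v (j * T) ∧ S2 om M v (j * T) ≤ R2 p v (j * T) := by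
    intro j
    induction j with
    | zero =>
      rw [Nat.cast_zero, zero_mul, i1, i2]
      exact ⟨by positivity, le_refl _, by positivity, i8⟩
    | succ j ih =>
      obtain ⟨a1, a2, a3, a4⟩ := ih
      obtain ⟨-, b2, b3, b4, b5, b6⟩ := stp (j * T) a1 a2 a3 a4
      have e1 : ((j + 1 : ℕ) : ℝ) * T = j * T + T := by
        push_cast
        ring
      rw [e1]
      refine ⟨?_, ?_, b3, b4⟩
      · have d1 : 0 < R2 p v (j * T) * (1 - 3 * y * Real.sqrt (R2 p v (j * T)) ^ al) :=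
          mul_pos a1 (by linarith)
        linarith
      · have d1 : 0 ≤ y * Real.sqrt (R2 p v (j * T)) ^ al :=
          mul_nonneg hy0.le (Real.rpow_nonneg (Real.sqrt_nonneg _) al)
        have d2 : R2 p v (j * T) * (1 - y * Real.sqrt (R2 p v (j * T)) ^ al) ≤
            R2 p v (j * T) * 1 := mul_le_mul_of_nonneg_left (by linarith) a1.le
        linarith
  -- the sequence
  have sqj := sq (fun j => Real.sqrt (R2 p v (j * T)))
    (by
      rw [Nat.cast_zero, zero_mul, i1]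
      exact Real.sqrt_sq he.le)
    (fun j => Real.sqrt_pos.2 (ind j).1)
    (fun j => by
      obtain ⟨a1, a2, a3, a4⟩ := ind j
      obtain ⟨-, b2, b3, b4, b5, b6⟩ := stp (j * T) a1 a2 a3 a4
      have e1 : ((j + 1 : ℕ) : ℝ) * T = j * T + T := by
        push_cast
        ring
      change Real.sqrt (R2 p v (j * T)) ^ 2 * (1 - 3 * y * Real.sqrt (R2 p v (j * T)) ^ al) ≤
        Real.sqrt (R2 p v (((j + 1 : ℕ) : ℝ) * T)) ^ 2 ∧
        Real.sqrt (R2 p v (((j + 1 : ℕ) : ℝ) * T)) ^ 2 ≤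
        Real.sqrt (R2 p v (j * T)) ^ 2 * (1 - y * Real.sqrt (R2 p v (j * T)) ^ al)
      rw [Real.sq_sqrt a1.le, Real.sq_sqrt (ind (j + 1)).1.le, e1]
      exact ⟨b5, b6⟩)
  -- all times
  intro t ht
  set j : ℕ := ⌊t / T⌋₊ with hj
  have k1 : (j : ℝ) * T ≤ t := by
    have h := Nat.floor_le (div_nonneg ht hT0.le)
    rwa [le_div_iff₀ hT0] at h
  have k2 : t < ((j : ℝ) + 1) * T := by
    have h := Nat.lt_floor_add_one (t / T)
    rwa [div_lt_iff₀ hT0] at h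
  have hj0 : (0 : ℝ) ≤ j := Nat.cast_nonneg j
  have hs : t - j * T ∈ Icc 0 T := ⟨by linarith, by linarith⟩
  have hts : (j : ℝ) * T + (t - j * T) = t := by ring
  obtain ⟨a1, a2, a3, a4⟩ := ind j
  obtain ⟨W, -⟩ := stp (j * T) a1 a2 a3 a4
  have r2 : Real.sqrt (R2 p v (j * T)) ^ 2 = R2 p v (j * T) := Real.sq_sqrt a1.le
  have w0 := W.w0 _ hs
  have w1 := W.w1 _ hs
  have w3 := W.w3 _ hs
  rw [hts] at w0 w1 w3
  have s0 : c0 * (1 + (j : ℝ)) ^ (-q) ≤ Real.sqrt (R2 p v (j * T)) ^ 2 ∧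
      Real.sqrt (R2 p v (j * T)) ^ 2 ≤ C0 * (1 + (j : ℝ)) ^ (-q) := sqj j
  have n1 : (1 + t) ^ (-q) ≤ (1 + (j : ℝ)) ^ (-q) := by
    refine Real.rpow_le_rpow_of_nonpos (by linarith) ?_ (by linarith)
    have h : (j : ℝ) * 1 ≤ j * T := mul_le_mul_of_nonneg_left hT hj0
    linarith
  have n2 : (1 + (j : ℝ)) ^ (-q) ≤ (1 + T) ^ q * (1 + t) ^ (-q) := by
    have m1 : ((1 + T) * (1 + (j : ℝ))) ^ (-q) ≤ (1 + t) ^ (-q) := by
      refine Real.rpow_le_rpow_of_nonpos (by linarith) ?_ (by linarith)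
      nlinarith
    rw [Real.mul_rpow (by linarith) (by linarith)] at m1
    have m2 : (1 + T) ^ q * (1 + T) ^ (-q) = 1 := by
      rw [← Real.rpow_add (by linarith), add_neg_cancel, Real.rpow_zero]
    calc (1 + (j : ℝ)) ^ (-q) = (1 + T) ^ q * ((1 + T) ^ (-q) * (1 + (j : ℝ)) ^ (-q)) := by
          rw [← mul_assoc, m2, one_mul]
      _ ≤ (1 + T) ^ q * (1 + t) ^ (-q) := mul_le_mul_of_nonneg_left m1 hTq.le
  refine ⟨?_, ?_, fun x => (w3 x).trans W.w4⟩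
  · have d1 : c0 / 4 * (1 + t) ^ (-q) ≤ c0 / 4 * (1 + (j : ℝ)) ^ (-q) :=
      mul_le_mul_of_nonneg_left n1 (by positivity)
    linarith [w0.1, s0.1]
  · have d1 : (4 * η * Real.sqrt (R2 p v (j * T))) ^ 2 ≤ 16 * Real.sqrt (R2 p v (j * T)) ^ 2 := by
      have d2 : η ^ 2 ≤ 1 := pow_le_one₀ hη.le hη1
      have d3 : (4 * η * Real.sqrt (R2 p v (j * T))) ^ 2 =
          16 * (η ^ 2 * Real.sqrt (R2 p v (j * T)) ^ 2) := by ring
      rw [d3]
      have d4 : η ^ 2 * Real.sqrt (R2 p v (j * T)) ^ 2 ≤ 1 * Real.sqrt (R2 p v (j * T)) ^ 2 :=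
        mul_le_mul_of_nonneg_right d2 (sq_nonneg _)
      linarith
    have d5 : C0 * (1 + (j : ℝ)) ^ (-q) ≤ C0 * ((1 + T) ^ q * (1 + t) ^ (-q)) :=
      mul_le_mul_of_nonneg_left n2 hC0.le
    have d6 : 20 * C0 * (1 + T) ^ q * (1 + t) ^ (-q) =
        20 * (C0 * ((1 + T) ^ q * (1 + t) ^ (-q))) := by ring
    rw [d6]
    linarith [w0.2, s0.2]

end

end Pool.Agent.BEW.H66
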